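import Pool.Agent.H.MP_360872_lc.B

set_option autoImplicit false
open Cardinal MeasureTheory

namespace Pool.Agent.Results.MP_360872_lc.Random

def Entangled (κ : Cardinal) (n : ℕ) (E : Set ℝ) : Prop :=
  ∀ F : Set (Fin n → ℝ), #F = κ → (∀ a ∈ F, Function.Injective a ∧ ∀ i, a i ∈ E) →
    (F.Pairwise fun a b => ∀ i j, a i ≠ b j) →
    ∀ t : Fin n → Fin 2, ∃ a ∈ F, ∃ b ∈ F, a ≠ b ∧ ∀ i, (t i = 0 ↔ a i < b i)

theorem result
    (h : ∀ S : Set (Set ℝ), #S < continuum → (∀ K ∈ S, IsClosed K ∧ volume K = 0) →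
      ⋃₀ S ≠ Set.univ) :
    ∀ n : ℕ, 1 < n → ∃ E : Set ℝ, Entangled continuum n E ∧ ¬ Entangled continuum (n + 1) E :=
  fun n hn => Pool.Agent.H.MP_360872_lc.main h n hn

end Pool.Agent.Results.MP_360872_lc.Random
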